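import Pool.Agent.Run7.h670.MY.Stm

/-!
# Piece NC of project MY (helper670): no concentration on small caps
-/

set_option autoImplicit false

open MeasureTheory Set Filter Topology

namespace Pool.Agent.Run7.h175.MY

open Pool.Agent.Run7.h670.MY

/-- First coordinate of the inverse stereographic projection. -/
noncomputable def s1 (z : ℝ × ℝ) : ℝ := 2 * z.1 / (1 + z.1 ^ 2 + z.2 ^ 2)

/-- Second coordinate of the inverse stereographic projection. -/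
noncomputable def s2 (z : ℝ × ℝ) : ℝ := 2 * z.2 / (1 + z.1 ^ 2 + z.2 ^ 2)

/-- Third coordinate of the inverse stereographic projection. -/
noncomputable def s3 (z : ℝ × ℝ) : ℝ := (z.1 ^ 2 + z.2 ^ 2 - 1) / (1 + z.1 ^ 2 + z.2 ^ 2)

/-- One minus the scalar product. -/
noncomputable def dd (v : ℝ × ℝ × ℝ) (z : ℝ × ℝ) : ℝ :=
  1 - (v.1 * s1 z + v.2.1 * s2 z + v.2.2 * s3 z)

lemma den_pos (z : ℝ × ℝ) : 0 < 1 + z.1 ^ 2 + z.2 ^ 2 := by positivity

lemma s_sq (z : ℝ × ℝ) : s1 z ^ 2 + s2 z ^ 2 + s3 z ^ 2 = 1 := by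
  have h := den_pos z
  unfold s1 s2 s3
  field_simp
  ring

lemma abs_s1 (z : ℝ × ℝ) : |s1 z| ≤ 1 := by
  apply abs_le_one_iff_mul_self_le_one.mpr
  nlinarith [s_sq z, sq_nonneg (s2 z), sq_nonneg (s3 z)]

lemma abs_s2 (z : ℝ × ℝ) : |s2 z| ≤ 1 := by
  apply abs_le_one_iff_mul_self_le_one.mpr
  nlinarith [s_sq z, sq_nonneg (s1 z), sq_nonneg (s3 z)]

lemma abs_s3 (z : ℝ × ℝ) : |s3 z| ≤ 1 := by
  apply abs_le_one_iff_mul_self_le_one.mpr
  nlinarith [s_sq z, sq_nonneg (s1 z), sq_nonneg (s2 z)]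

lemma meas_dd (v : ℝ × ℝ × ℝ) : Measurable (dd v) := by
  unfold dd s1 s2 s3
  fun_prop

lemma dd_near (v w : ℝ × ℝ × ℝ) (z : ℝ × ℝ) :
    dd v z ≤ dd w z + (|w.1 - v.1| + |w.2.1 - v.2.1| + |w.2.2 - v.2.2|) := by
  have h1 : (w.1 - v.1) * s1 z ≤ |w.1 - v.1| := by
    calc (w.1 - v.1) * s1 z ≤ |(w.1 - v.1) * s1 z| := le_abs_self _
      _ = |w.1 - v.1| * |s1 z| := abs_mul _ _
      _ ≤ |w.1 - v.1| * 1 := mul_le_mul_of_nonneg_left (abs_s1 z) (abs_nonneg _)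
      _ = _ := mul_one _
  have h2 : (w.2.1 - v.2.1) * s2 z ≤ |w.2.1 - v.2.1| := by
    calc (w.2.1 - v.2.1) * s2 z ≤ |(w.2.1 - v.2.1) * s2 z| := le_abs_self _
      _ = |w.2.1 - v.2.1| * |s2 z| := abs_mul _ _
      _ ≤ |w.2.1 - v.2.1| * 1 := mul_le_mul_of_nonneg_left (abs_s2 z) (abs_nonneg _)
      _ = _ := mul_one _
  have h3 : (w.2.2 - v.2.2) * s3 z ≤ |w.2.2 - v.2.2| := by
    calc (w.2.2 - v.2.2) * s3 z ≤ |(w.2.2 - v.2.2) * s3 z| := le_abs_self _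
      _ = |w.2.2 - v.2.2| * |s3 z| := abs_mul _ _
      _ ≤ |w.2.2 - v.2.2| * 1 := mul_le_mul_of_nonneg_left (abs_s3 z) (abs_nonneg _)
      _ = _ := mul_one _
  unfold dd
  nlinarith

/-- The closed unit ball. -/
def KK : Set (ℝ × ℝ × ℝ) := {v | v.1 ^ 2 + v.2.1 ^ 2 + v.2.2 ^ 2 ≤ 1}

lemma isCompact_KK : IsCompact KK := by
  have hc : IsClosed KK := by
    unfold KK
    exact isClosed_le (by fun_prop) continuous_const
  have hI : IsCompact ((Icc (-1 : ℝ) 1) ×ˢ ((Icc (-1 : ℝ) 1) ×ˢ (Icc (-1 : ℝ) 1))) :=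
    isCompact_Icc.prod (isCompact_Icc.prod isCompact_Icc)
  refine hI.of_isClosed_subset hc ?_
  intro v hv
  have hv' : v.1 ^ 2 + v.2.1 ^ 2 + v.2.2 ^ 2 ≤ 1 := hv
  have a1 : v.1 ∈ Icc (-1 : ℝ) 1 := by
    rw [mem_Icc]; constructor <;> nlinarith [sq_nonneg v.2.1, sq_nonneg v.2.2]
  have a2 : v.2.1 ∈ Icc (-1 : ℝ) 1 := by
    rw [mem_Icc]; constructor <;> nlinarith [sq_nonneg v.1, sq_nonneg v.2.2]
  have a3 : v.2.2 ∈ Icc (-1 : ℝ) 1 := by
    rw [mem_Icc]; constructor <;> nlinarith [sq_nonneg v.2.1, sq_nonneg v.1]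
  exact ⟨a1, a2, a3⟩

/-- At a point of the ball the cap of height zero has at most one point. -/
lemma cap_zero (v : ℝ × ℝ × ℝ) (hv : v ∈ KK) :
    {z | dd v z ≤ 0} ⊆ {(v.1 / (1 - v.2.2), v.2.1 / (1 - v.2.2))} := by
  intro z hz
  have hz' : dd v z ≤ 0 := hz
  have hv' : v.1 ^ 2 + v.2.1 ^ 2 + v.2.2 ^ 2 ≤ 1 := hv
  unfold dd at hz'
  have hs := s_sq z
  have hsum : (v.1 - s1 z) ^ 2 + (v.2.1 - s2 z) ^ 2 + (v.2.2 - s3 z) ^ 2 ≤ 0 := by nlinarith
  have q1 := sq_nonneg (v.1 - s1 z)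
  have q2 := sq_nonneg (v.2.1 - s2 z)
  have q3 := sq_nonneg (v.2.2 - s3 z)
  have e1 : v.1 = s1 z := by
    have h : (v.1 - s1 z) ^ 2 = 0 := by linarith
    have h' : v.1 - s1 z = 0 := by simpa using h
    linarith
  have e2 : v.2.1 = s2 z := by
    have h : (v.2.1 - s2 z) ^ 2 = 0 := by linarith
    have h' : v.2.1 - s2 z = 0 := by simpa using h
    linarith
  have e3 : v.2.2 = s3 z := by
    have h : (v.2.2 - s3 z) ^ 2 = 0 := by linarith
    have h' : v.2.2 - s3 z = 0 := by simpa using h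
    linarith
  have hd := den_pos z
  have h3 : 1 - s3 z = 2 / (1 + z.1 ^ 2 + z.2 ^ 2) := by
    unfold s3; field_simp; ring
  rw [mem_singleton_iff, e1, e2, e3, h3]
  apply Prod.ext
  · show z.1 = s1 z / (2 / (1 + z.1 ^ 2 + z.2 ^ 2))
    unfold s1; field_simp
  · show z.2 = s2 z / (2 / (1 + z.1 ^ 2 + z.2 ^ 2))
    unfold s2; field_simp

/-- At a single point of the ball there is a small cap of small measure. -/
lemma one_point (ν : Measure (ℝ × ℝ)) [IsFiniteMeasure ν] (h0 : ν univ ≠ 0)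
    (hna : ∀ z, ν {z} = 0) (v : ℝ × ℝ × ℝ) (hv : v ∈ KK) :
    ∃ η : ℝ, 0 < η ∧ ν.real {z | dd v z < η} ≤ ν.real univ / 4 := by
  have hanti : Antitone (fun n : ℕ => {z | dd v z < 1 / ((n : ℝ) + 1)}) := by
    intro a b hab z hz
    have : dd v z < 1 / ((b : ℝ) + 1) := hz
    have h2 : 1 / ((b : ℝ) + 1) ≤ 1 / ((a : ℝ) + 1) := by
      apply one_div_le_one_div_of_le (by positivity)
      have : (a : ℝ) ≤ b := by exact_mod_cast hab
      linarith
    exact lt_of_lt_of_le this h2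
  have hlim := tendsto_measure_iInter_atTop (μ := ν)
    (s := fun n : ℕ => {z | dd v z < 1 / ((n : ℝ) + 1)})
    (fun n => (measurableSet_lt (meas_dd v) measurable_const).nullMeasurableSet) hanti
    ⟨0, measure_ne_top _ _⟩
  have hint : (⋂ n : ℕ, {z | dd v z < 1 / ((n : ℝ) + 1)}) ⊆ {z | dd v z ≤ 0} := by
    intro z hz
    show dd v z ≤ 0
    by_contra hpos
    push Not at hpos
    obtain ⟨n, hn⟩ := exists_nat_one_div_lt hpos
    have := mem_iInter.mp hz n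
    have h2 : dd v z < 1 / ((n : ℝ) + 1) := this
    linarith
  have hz : ν (⋂ n : ℕ, {z | dd v z < 1 / ((n : ℝ) + 1)}) = 0 :=
    measure_mono_null (hint.trans (cap_zero v hv)) (hna _)
  rw [hz] at hlim
  have hm : (0 : ENNReal) < ν univ / 4 := ENNReal.div_pos h0 (by norm_num)
  obtain ⟨n, hn⟩ := (hlim.eventually (gt_mem_nhds hm)).exists
  refine ⟨1 / ((n : ℝ) + 1), by positivity, ?_⟩
  have h4 : (ν univ / 4).toReal = ν.real univ / 4 := by
    rw [ENNReal.toReal_div]; rfl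
  rw [← h4]
  exact ENNReal.toReal_mono (ENNReal.div_ne_top (measure_ne_top _ _) (by norm_num)) hn.le

lemma all_points (ν : Measure (ℝ × ℝ)) [IsFiniteMeasure ν] (h0 : ν univ ≠ 0)
    (hna : ∀ z, ν {z} = 0) :
    ∃ η : ℝ, 0 < η ∧ ∀ v ∈ KK, ν.real {z | dd v z < η} ≤ ν.real univ / 4 := by
  refine isCompact_KK.induction_on
    (p := fun S => ∃ η : ℝ, 0 < η ∧ ∀ v ∈ S, ν.real {z | dd v z < η} ≤ ν.real univ / 4)
    ⟨1, one_pos, by simp⟩ ?_ ?_ ?_
  · rintro S T hST ⟨η, hη, h⟩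
    exact ⟨η, hη, fun v hv => h v (hST hv)⟩
  · rintro S T ⟨η, hη, h⟩ ⟨θ, hθ, k⟩
    refine ⟨min η θ, lt_min hη hθ, ?_⟩
    rintro v (hv | hv)
    · refine le_trans (measureReal_mono ?_ (measure_ne_top _ _)) (h v hv)
      intro z hz
      exact lt_of_lt_of_le (show dd v z < min η θ from hz) (min_le_left _ _)
    · refine le_trans (measureReal_mono ?_ (measure_ne_top _ _)) (k v hv)
      intro z hz
      exact lt_of_lt_of_le (show dd v z < min η θ from hz) (min_le_right _ _)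
  · intro v hv
    obtain ⟨η, hη, h⟩ := one_point ν h0 hna v hv
    refine ⟨{w | |w.1 - v.1| + |w.2.1 - v.2.1| + |w.2.2 - v.2.2| < η / 2}, ?_, η / 2,
      by positivity, ?_⟩
    · apply mem_nhdsWithin_of_mem_nhds
      apply IsOpen.mem_nhds
      · exact isOpen_lt (by fun_prop) continuous_const
      · show |v.1 - v.1| + |v.2.1 - v.2.1| + |v.2.2 - v.2.2| < η / 2
        simp only [sub_self, abs_zero, add_zero]
        positivity
    · intro w hw
      refine le_trans (measureReal_mono ?_ (measure_ne_top _ _)) h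
      intro z hz
      have hz' : dd w z < η / 2 := hz
      have hw' : |w.1 - v.1| + |w.2.1 - v.2.1| + |w.2.2 - v.2.2| < η / 2 := hw
      have := dd_near v w z
      show dd v z < η
      linarith

/-- The point of the ball of the parameters `(p, q, c)`. -/
noncomputable def vv (p q c : ℝ) : ℝ × ℝ × ℝ :=
  (2 * p / (1 + c ^ 2 + p ^ 2 + q ^ 2), 2 * q / (1 + c ^ 2 + p ^ 2 + q ^ 2),
    (c ^ 2 + p ^ 2 + q ^ 2 - 1) / (1 + c ^ 2 + p ^ 2 + q ^ 2))

lemma vv_mem (p q c : ℝ) : vv p q c ∈ KK := by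
  have h : 0 < 1 + c ^ 2 + p ^ 2 + q ^ 2 := by positivity
  show (2 * p / (1 + c ^ 2 + p ^ 2 + q ^ 2)) ^ 2 + (2 * q / (1 + c ^ 2 + p ^ 2 + q ^ 2)) ^ 2 +
    ((c ^ 2 + p ^ 2 + q ^ 2 - 1) / (1 + c ^ 2 + p ^ 2 + q ^ 2)) ^ 2 ≤ 1
  rw [div_pow, div_pow, div_pow, ← add_div, ← add_div, div_le_one (by positivity)]
  nlinarith [sq_nonneg c]

lemma qq_eq (p q c : ℝ) (z : ℝ × ℝ) : qq p q c z.1 z.2 = dd (vv p q c) z / 2 := by
  have h : 0 < 1 + c ^ 2 + p ^ 2 + q ^ 2 := by positivity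
  have h' := den_pos z
  unfold qq dd vv s1 s2 s3
  field_simp
  ring

/-- Piece NC. -/
theorem t_NC : S_NC := by
  intro ν hν h0 hna
  haveI := hν
  obtain ⟨η, hη, h⟩ := all_points ν h0 hna
  refine ⟨η / 2, by positivity, ?_⟩
  intro p q c _
  refine le_trans (measureReal_mono ?_ (measure_ne_top _ _)) (h (vv p q c) (vv_mem p q c))
  intro z hz
  have hz' : qq p q c z.1 z.2 < η / 2 := hz
  rw [qq_eq] at hz'
  show dd (vv p q c) z < η
  linarith

end Pool.Agent.Run7.h175.MY
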